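import Pool.Agent.H222.FT.Fam7

/-!
# MP_850839: no loss for compact smooth families of lines without contact of infinite order

Let `n = d + 1 ≥ 3`.  A family of lines with `n - 1` parameters is given by maps `Y`, `e` from an
open set of `ℝ^(n-1)` to `ℝ^n`, `‖e w‖ = 1`: the line `ℓ(w)` through `Y w` with direction `e w`.
The family is REGULAR at `w` if, near some point of the line `ℓ(w)`, the lines of the family are the
leaves of a foliation of an open set, i.e. the derivative of `Y + s e` at `w` is injective modulo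
`e w` for some `s`.  Examples: families of the form `Y = Y(e)` with one line in every direction; the
normals of a hypersurface (here the directions may degenerate: flat points, cylinders, ...) or of a
submanifold of any codimension; families which consist locally of bushes.

The family has a contact of infinite order with the bush of all lines through the point `p` at `w₀`
if `dist (p, ℓ(w)) = O(|w - w₀|^k)` as `w → w₀`, for every `k`.  It is called rigid if every such
contact is a local coincidence: then all lines `ℓ(w)`, `w` near `w₀`, pass through `p`.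

**Theorem.**  Let `q > n/(n-1)`.  The inequality of the problem holds, without any loss in `δ`, for
all finite families of tubes along the lines of the family whose parameters run through a compact
set and whose orientations (or only parameters) are `δ`-separated,

1. if the family is regular, of class `C^∞` and rigid;
2. if it is regular and real-analytic.

There may be finitely many pieces of this kind, so all compact regular real-analytic families of
lines with `n - 1` parameters are covered.  In particular, for one line in every direction, given by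
a map `Y` from a neighbourhood of the unit sphere to `ℝ^n`:

3. if `Y` is of class `C^∞` and rigid; 4. if `Y` is real-analytic;
5. if `Y` is of class `C^∞`, then for `Y + A` instead of `Y`, for ALMOST EVERY `n × n` matrix `A`.

In 3 and 5 the words rigid and almost every cannot be dropped unless the conjecture is true: there
is ONE family of class `C^∞` (the diameters of a smooth convex body of constant width, see
`ConstantWidthBody`) for which the inequality is as strong as the conjecture for all tubes.
Regularity cannot be dropped in 1 and 2: for the lines in a plane of `ℝ³`, with `δ`-separated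
parameters, the inequality fails if `3/2 < q < 2`.
-/

open MeasureTheory Set Metric Asymptotics Filter Topology
open scoped ENNReal ContDiff

namespace Pool.Agent.Results.MP_850839_an.AnalyticLineFamilies

/-- The `δ`-tube with centre `a` and orientation `e`: the cylinder of length `1` and radius `δ`
with centre `a` whose axis has the direction `e`. -/
def tube {n : ℕ} (δ : ℝ) (a e : EuclideanSpace ℝ (Fin n)) : Set (EuclideanSpace ℝ (Fin n)) :=
  {y | |inner ℝ (y - a) e| ≤ 1 / 2 ∧ ‖(y - a) - (inner ℝ (y - a) e : ℝ) • e‖ ≤ δ}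

/-- The distance of the point `p` from the line through `y` with direction `e` (`‖e‖ = 1`). -/
noncomputable def lineDist {n : ℕ} (y e p : EuclideanSpace ℝ (Fin n)) : ℝ :=
  ‖(p - y) - (inner ℝ (p - y) e : ℝ) • e‖

variable {m n : ℕ}

/-- At the parameter `x₀` the family of the lines through `Y x` with direction `e x`, `x ∈ S`, has a
contact of infinite order with the bush of all lines through `p`. -/
def InfiniteContact (S : Set (EuclideanSpace ℝ (Fin m)))
    (Y e : EuclideanSpace ℝ (Fin m) → EuclideanSpace ℝ (Fin n)) (p : EuclideanSpace ℝ (Fin n))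
    (x₀ : EuclideanSpace ℝ (Fin m)) : Prop :=
  ∀ k : ℕ, (fun x => lineDist (Y x) (e x) p) =O[𝓝[S] x₀] fun x => ‖x - x₀‖ ^ k

/-- For all parameters `x ∈ S` near `x₀` the line of the family passes through `p`. -/
def LocallyBush (S : Set (EuclideanSpace ℝ (Fin m)))
    (Y e : EuclideanSpace ℝ (Fin m) → EuclideanSpace ℝ (Fin n)) (p : EuclideanSpace ℝ (Fin n))
    (x₀ : EuclideanSpace ℝ (Fin m)) : Prop :=
  ∀ᶠ x in 𝓝[S] x₀, lineDist (Y x) (e x) p = 0

/-- Every contact of infinite order with a bush is a local coincidence. -/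
def Rigid (S : Set (EuclideanSpace ℝ (Fin m)))
    (Y e : EuclideanSpace ℝ (Fin m) → EuclideanSpace ℝ (Fin n)) : Prop :=
  ∀ p, ∀ x₀ ∈ S, InfiniteContact S Y e p x₀ → LocallyBush S Y e p x₀

/-- The family of the lines through `Y w` with direction `e w` is regular at `w`: for some `s` the
derivative of `Y + s e` at `w` is injective modulo `e w`. -/
def Regular (Y e : EuclideanSpace ℝ (Fin m) → EuclideanSpace ℝ (Fin n))
    (w : EuclideanSpace ℝ (Fin m)) : Prop :=
  ∃ s : ℝ, ∀ u, (∃ τ : ℝ, fderiv ℝ Y w u + s • fderiv ℝ e w u = τ • e w) → u = 0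

/-- The inequality of the problem without loss in `δ` for all `q > n/(n-1)`, for all finite families
of tubes along the lines through `Y j x` with direction `e j x`, `x ∈ K j`, for which either the
orientations or the parameters (up to the factor `Λ`) are `δ`-separated, for any two tubes of the
same piece `j`.  The centres are within `Λ δ` of a point `Y j x + s e j x`, `|s| ≤ Λ`.  The constant
`C` depends on `n`, `K`, `Y`, `e`, `q` and `Λ` only. -/
def Lossless {J : Type} (K : J → Set (EuclideanSpace ℝ (Fin m)))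
    (Y e : J → EuclideanSpace ℝ (Fin m) → EuclideanSpace ℝ (Fin n)) : Prop :=
  ∀ q : ℝ, (n : ℝ) / ((n : ℝ) - 1) < q → ∀ Λ : ℝ, ∃ C : ℝ, ∀ δ : ℝ, 0 < δ → δ < 1 →
    ∀ (ι : Type) [Fintype ι] (a : ι → EuclideanSpace ℝ (Fin n)) (j : ι → J)
      (x : ι → EuclideanSpace ℝ (Fin m)), (∀ i, x i ∈ K (j i)) →
      (∀ i i', i ≠ i' → j i = j i' →
        δ ≤ ‖e (j i) (x i) - e (j i') (x i')‖ ∨ δ ≤ Λ * ‖x i - x i'‖) →
      (∀ i, ∃ s : ℝ, |s| ≤ Λ ∧ ‖a i - (Y (j i) (x i) + s • e (j i) (x i))‖ ≤ Λ * δ) →
      eLpNorm (fun y => ∑ i, (tube δ (a i) (e (j i) (x i))).indicator (fun _ => (1 : ℝ)) y)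
        (ENNReal.ofReal q) volume ≤
      ENNReal.ofReal (C * δ ^ (((n : ℝ) - 1) / q) *
        (Fintype.card ι : ℝ) ^ (1 - 1 / (q * ((n : ℝ) - 1))))

/-- The linear map of `ℝ^n` with the matrix `A`. -/
noncomputable def lin (A : Fin n × Fin n → ℝ) (x : EuclideanSpace ℝ (Fin n)) :
    EuclideanSpace ℝ (Fin n) :=
  WithLp.toLp 2 fun i => ∑ j, A (i, j) * x j

/-- **The inequality of the problem holds without loss for compact regular families of lines which
are real-analytic, or of class `C^∞` and without contact of infinite order with a bush except for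
local coincidences; and, for one line in every direction, for almost every linear perturbation of
every family of class `C^∞`.** -/
theorem result (d : ℕ) (hd : 2 ≤ d) :
    (∀ (J : Type) [Finite J] (W K : J → Set (EuclideanSpace ℝ (Fin d)))
        (Y e : J → EuclideanSpace ℝ (Fin d) → EuclideanSpace ℝ (Fin (d + 1))),
      (∀ j, IsOpen (W j) ∧ IsCompact (K j) ∧ K j ⊆ W j) → (∀ j, ∀ w ∈ W j, ‖e j w‖ = 1) →
      (∀ j, ∀ w ∈ K j, Regular (Y j) (e j) w) →
        ((∀ j, (∀ w ∈ W j, ContDiffAt ℝ ∞ (Y j) w ∧ ContDiffAt ℝ ∞ (e j) w) ∧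
          Rigid (W j) (Y j) (e j)) → Lossless K Y e) ∧
        ((∀ j, ∀ w ∈ W j, AnalyticAt ℝ (Y j) w ∧ AnalyticAt ℝ (e j) w) → Lossless K Y e)) ∧
    (∀ Y : EuclideanSpace ℝ (Fin (d + 1)) → EuclideanSpace ℝ (Fin (d + 1)),
      ((∀ e, ‖e‖ = 1 → ContDiffAt ℝ ∞ Y e) → Rigid (sphere 0 1) Y id →
        Lossless (fun _ : Unit => sphere 0 1) (fun _ => Y) (fun _ => id)) ∧
      ((∀ e, ‖e‖ = 1 → AnalyticAt ℝ Y e) →
        Lossless (fun _ : Unit => sphere 0 1) (fun _ => Y) (fun _ => id)) ∧
      ((∀ e, ‖e‖ = 1 → ContDiffAt ℝ ∞ Y e) → ∀ᵐ A : Fin (d + 1) × Fin (d + 1) → ℝ,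
        Lossless (fun _ : Unit => sphere 0 1) (fun _ x => Y x + lin A x) (fun _ => id))) := by
  have hcast : ((d + 1 : ℕ) : ℝ) - 1 = d := by push_cast; ring
  have hq' : ∀ q : ℝ, ((d + 1 : ℕ) : ℝ) / (((d + 1 : ℕ) : ℝ) - 1) < q → ((d : ℝ) + 1) / d < q := by
    intro q hq
    rw [hcast] at hq
    push_cast at hq
    exact hq
  have hS : ∀ Y : EuclideanSpace ℝ (Fin (d + 1)) → EuclideanSpace ℝ (Fin (d + 1)),
      (∀ e, ‖e‖ = 1 → ContDiffAt ℝ ∞ Y e) →
      (∀ R : EuclideanSpace ℝ (Fin (d + 1)) ≃ₗᵢ[ℝ] Pool.Agent.H810R3.Tub.Space d,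
        Pool.Agent.H222.FT.RigidE (fun v => Y (R.symm (Pool.Agent.H810R3.Tub.dir v)))
          (fun v => R.symm (Pool.Agent.H810R3.Tub.dir v)) univ) →
      Lossless (fun _ : Unit => sphere 0 1) (fun _ => Y) (fun _ => id) := by
    intro Y hY hR q hq Λ
    obtain ⟨C, hC⟩ := Pool.Agent.H222.FT.sphere_main2 hd hY hR (hq' q hq) Λ
    refine ⟨C, fun δ h0 h1 ι _ a j x hx hs hn => ?_⟩
    rw [hcast]
    exact hC δ h0 h1 ι a x (fun i => mem_sphere_zero_iff_norm.1 (hx i)) (fun i i' h => hs i i' h rfl) hn
  have hRS : ∀ Y : EuclideanSpace ℝ (Fin (d + 1)) → EuclideanSpace ℝ (Fin (d + 1)),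
      Rigid (sphere 0 1) Y id → Pool.Agent.H222.FT.RigidS Y := by
    intro Y h p e₀ he₀ hk
    have h1 : InfiniteContact (sphere 0 1) Y id p e₀ := fun k => (hk k).norm_left
    filter_upwards [h p e₀ (mem_sphere_zero_iff_norm.2 he₀) h1] with e he
    exact norm_eq_zero.1 he
  refine ⟨?_, ?_⟩
  · intro J _ W K Y e hWK he hreg
    have main : (∀ j, ∀ w ∈ W j, ContDiffAt ℝ ∞ (Y j) w) → (∀ j, ∀ w ∈ W j, ContDiffAt ℝ ∞ (e j) w) →
        (∀ j, Pool.Agent.H222.FT.RigidE (Y j) (e j) (W j)) → Lossless K Y e := by
      intro h1 h2 h3 q hq Λ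
      obtain ⟨C, hC⟩ := Pool.Agent.H222.FT.family_main hd (hq' q hq) (fun j => (hWK j).1)
        (fun j => (hWK j).2.1) (fun j => (hWK j).2.2) h1 h2 he h3 hreg Λ
      refine ⟨C, fun δ h0 h1 ι _ a j x hx hs hn => ?_⟩
      rw [hcast]
      exact hC δ h0 h1 ι a j x hx hs hn
    constructor
    · intro h
      refine main (fun j w hw => ((h j).1 w hw).1) (fun j w hw => ((h j).1 w hw).2) fun j => ?_
      intro w₁ hw₁ p hk
      have h1 : InfiniteContact (W j) (Y j) (e j) p w₁ := fun k =>
        ((hk k).norm_left).mono nhdsWithin_le_nhds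
      have h2 := (h j).2 p w₁ hw₁ h1
      unfold LocallyBush at h2
      rw [(hWK j).1.nhdsWithin_eq hw₁] at h2
      filter_upwards [h2] with w hw
      exact norm_eq_zero.1 hw
    · intro h
      exact main (fun j w hw => (h j w hw).1.contDiffAt) (fun j w hw => (h j w hw).2.contDiffAt)
        fun j => Pool.Agent.H222.FT.rigidE_of_analytic (fun w hw => (h j w hw).1) (fun w hw => (h j w hw).2)
  · intro Y
    refine ⟨fun hY h => hS Y hY fun R => Pool.Agent.H222.FT.rigidE_of_rigidS R (hRS Y h), fun hY => ?_,
      fun hY => ?_⟩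
    · refine hS Y (fun e he => (hY e he).contDiffAt) fun R => ?_
      have he : ∀ v, AnalyticAt ℝ (fun v => R.symm (Pool.Agent.H810R3.Tub.dir v)) v := fun v =>
        (R.symm.toContinuousLinearEquiv.contDiff.comp
          (Pool.Agent.H222.FT.dir_smooth (d := d) ω)).contDiffAt.analyticAt
      refine Pool.Agent.H222.FT.rigidE_of_analytic (fun v _ => ?_) (fun v _ => he v)
      exact AnalyticAt.comp (g := Y) (f := fun v => R.symm (Pool.Agent.H810R3.Tub.dir v))
        (hY _ (Pool.Agent.H222.FT.norm_symm_dir R v)) (he v)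
    · have h0 := Pool.Agent.H222.FT.bad_null hd hY
      have h1 : ∀ᵐ A : Fin (d + 1) × Fin (d + 1) → ℝ, A ∉ Pool.Agent.H222.FT.BadM Y := by
        rw [ae_iff]
        simpa using h0
      filter_upwards [h1] with A hA
      have hYA : ∀ e, ‖e‖ = 1 → ContDiffAt ℝ ∞ (fun x => Y x + Pool.Agent.H222.FT.app A x) e := fun e he =>
        (hY e he).add (Pool.Agent.H222.FT.app A).contDiff.contDiffAt
      have hlin : (fun x => Y x + lin A x) = fun x => Y x + Pool.Agent.H222.FT.app A x := rfl
      rw [hlin]
      exact hS _ hYA fun R => Pool.Agent.H222.FT.rigidE_of_rigidS R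
        (Pool.Agent.H222.FT.rigidS_of_good (fun e he => (hY e he).differentiableAt (by simp)) hA)

end Pool.Agent.Results.MP_850839_an.AnalyticLineFamilies
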