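import Pool.Agent.H222.KW.Main

/-!
# MP_850839: the diameters of one smooth convex body of constant width are the worst tubes

Let `n ≥ 2`.  There are a constant `A`, depending only on `n`, and, for all `m` and `ε > 0`, a
convex body `K` in `ℝ^n` of constant width `1`, with boundary of class `C^∞` and `ε`-close to the
ball of radius `1/2` in `C^m`, such that, simultaneously for all real exponents `q ≥ 1`: if the
inequality of the problem with exponent `q` (without any loss in `δ`) holds with the constant `C`
for the `δ`-neighbourhoods of DIAMETERS of `K`, then it holds with the constant `A * C` for ALL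
families of `δ`-tubes with `δ`-separated orientations.  In other words all the tubes may be taken
along the normals of a single smooth hypersurface which is as close to a sphere as we like.

The body is described by the map `P` that sends a unit vector `e` to the unique point of `K` at
which `⟨·, e⟩` is maximal (the inverse of the Gauss map).  Constant width `1` means
`P e - P (-e) = e`; the diameter of `K` in the direction `e` is the segment from `P (-e)` to `P e`,
it has length `1` and midpoint `(P e + P (-e)) / 2`.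
-/

open MeasureTheory Set
open scoped ENNReal ContDiff

namespace Pool.Agent.Results.MP_850839_an.ConstantWidthBody

/-- The `δ`-tube with centre `a` and orientation `e`: the cylinder of length `1` and radius `δ`
with centre `a` whose axis has the direction `e`. -/
def tube {n : ℕ} (δ : ℝ) (a e : EuclideanSpace ℝ (Fin n)) : Set (EuclideanSpace ℝ (Fin n)) :=
  {y | |inner ℝ (y - a) e| ≤ 1 / 2 ∧ ‖(y - a) - (inner ℝ (y - a) e : ℝ) • e‖ ≤ δ}

/-- The inequality of the problem, with constant `C`, for all `0 < δ < 1` and all finite families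
of `δ`-tubes with `δ`-separated orientations whose pairs (centre, orientation) belong to `A`. -/
def TubeInequality (n : ℕ) (A : Set (EuclideanSpace ℝ (Fin n) × EuclideanSpace ℝ (Fin n)))
    (q C : ℝ) : Prop :=
  ∀ δ : ℝ, 0 < δ → δ < 1 → ∀ (N : ℕ) (a e : Fin N → EuclideanSpace ℝ (Fin n)),
    (∀ i, ‖e i‖ = 1) → (∀ i j, i ≠ j → δ ≤ ‖e i - e j‖) → (∀ i, (a i, e i) ∈ A) →
    eLpNorm (fun x => ∑ i, (tube δ (a i) (e i)).indicator (fun _ => (1 : ℝ)) x)
      (ENNReal.ofReal q) volume ≤
    ENNReal.ofReal (C * δ ^ (((n : ℝ) - 1) / q) * (N : ℝ) ^ (1 - 1 / (q * ((n : ℝ) - 1))))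

/-- `P` is the inverse Gauss map of a convex body `K` of constant width `1` whose boundary is of
class `C^∞`, and `K` is `ε`-close in `C^m` to the ball of radius `1/2` around the origin (whose
inverse Gauss map is `e ↦ e / 2`). -/
structure IsConstantWidthBody {n : ℕ} (m : ℕ) (ε : ℝ) (K : Set (EuclideanSpace ℝ (Fin n)))
    (P : EuclideanSpace ℝ (Fin n) → EuclideanSpace ℝ (Fin n)) : Prop where
  compact : IsCompact K
  convex : Convex ℝ K
  smooth : ContDiff ℝ ∞ P
  mem : ∀ e, ‖e‖ = 1 → P e ∈ K
  supports : ∀ e, ‖e‖ = 1 → ∀ y ∈ K, y ≠ P e → inner ℝ y e < inner ℝ (P e) e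
  width : ∀ e, ‖e‖ = 1 → P e - P (-e) = e
  close : ∀ k ≤ m, ∀ x, ‖iteratedFDeriv ℝ k (fun y => P y - (1 / 2 : ℝ) • y) x‖ ≤ ε

/-- The pairs (midpoint, direction) of the diameters of the body with inverse Gauss map `P`. -/
def diameters {n : ℕ} (P : EuclideanSpace ℝ (Fin n) → EuclideanSpace ℝ (Fin n)) :
    Set (EuclideanSpace ℝ (Fin n) × EuclideanSpace ℝ (Fin n)) :=
  {z | z.1 = (1 / 2 : ℝ) • (P z.2 + P (-z.2))}

/-- **The diameters of one smooth convex body of constant width, arbitrarily close to the ball,
are, up to a factor that depends only on the dimension, the worst families of tubes in the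
inequality of the problem, for all exponents simultaneously.** -/
theorem result (n : ℕ) (hn : 2 ≤ n) :
    ∃ A : ℝ, 0 < A ∧ ∀ (m : ℕ) (ε : ℝ), 0 < ε →
      ∃ (K : Set (EuclideanSpace ℝ (Fin n)))
        (P : EuclideanSpace ℝ (Fin n) → EuclideanSpace ℝ (Fin n)),
        IsConstantWidthBody m ε K P ∧
        ∀ q : ℝ, 1 ≤ q → ∀ C : ℝ, 0 ≤ C →
          TubeInequality n (diameters P) q C → TubeInequality n univ q (A * C) := by
  obtain ⟨d, rfl⟩ : ∃ d, n = d + 1 := ⟨n - 1, by omega⟩
  obtain ⟨A, hA, hmain⟩ := Pool.Agent.H222.KW.main (d := d) (by omega)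
  refine ⟨A, hA, fun m ε hε => ?_⟩
  obtain ⟨K, P, h1, h2, h3, h4, h5, h6⟩ := hmain m ε hε
  refine ⟨K, P, ⟨h1, h2, h3, fun e he => (h5 e he).1, fun e he => (h5 e he).2.1,
    fun e he => (h5 e he).2.2, h4⟩, fun q hq C hC => ?_⟩
  have hcast : ((d + 1 : ℕ) : ℝ) - 1 = d := by push_cast; ring
  have hTB : ∀ (A : Set (EuclideanSpace ℝ (Fin (d + 1)) × EuclideanSpace ℝ (Fin (d + 1))))
      (C : ℝ), TubeInequality (d + 1) A q C ↔ Pool.Agent.H222.KW.TB d A q C := by
    intro A C
    unfold TubeInequality Pool.Agent.H222.KW.TB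
    rw [hcast]
    exact Iff.rfl
  simp only [hTB]
  exact h6 q hq C hC

end Pool.Agent.Results.MP_850839_an.ConstantWidthBody
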