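import Pool.Agent.H565.MK.Spr2

/-!
# The Kakeya inequality for tubes: the whole loss comes from the flat bushes

For `2 ≤ k ≤ n` the `L ^ (k/(k-1))` norm of the number of tubes is controlled, for every family of
`δ`-tubes in `ℝ ^ n`, by the trivial term, by the dimension `α` of the set of the directions
(`α = n - 1` for `δ`-separated directions) and by the flat bushes, i.e. the bushes such that half of
the directions are very close to a subspace of dimension `< k` and are not contained in a few small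
balls. In particular

* (`k = n`, `β = 0`, `α = n - 1`) the inequality of the problem holds, up to the factor
  `exp (C √(log (1/δ)))`, for the families whose bushes do not spread along hyperplanes;
* (`α ≤ k - 1`, `β = 0`) it holds, also with `k` in place of `n`, for all families whose directions
  lie in a set of dimension `α ≤ k - 1` which does not spread along the subspaces of dimension `< k`,
  for example a generic set of dimension `α ≤ min (k - 1) (n - k + 1)`;
* families whose bushes spread along the subspaces of dimension `< k` in an at most `β`-dimensional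
  way satisfy the inequality with the loss `δ ^ (-max (n - k) β / (k - 1))`.

All inequalities are proved on an arbitrary set `G`, with conditions on the bushes of its points only.
-/

set_option autoImplicit false

open MeasureTheory
open scoped ENNReal

namespace Pool.Agent.Results.MP_850839_an.FlatBushes

/-- The `δ`-tube with centre `a` and direction `e` (a unit vector): the closed cylinder of length
`1` and radius `δ` around the segment with centre `a` and direction `e`. -/
def tube {n : ℕ} (δ : ℝ) (a e : EuclideanSpace ℝ (Fin n)) : Set (EuclideanSpace ℝ (Fin n)) :=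
  {y | |inner ℝ (y - a) e| ≤ 1 / 2 ∧ ‖(y - a) - (inner ℝ (y - a) e) • e‖ ≤ δ}

/-- The number of the `δ`-tubes with centres `a i` and directions `e i` that contain `x`. -/
noncomputable def mult {n : ℕ} {ι : Type} [Fintype ι] (δ : ℝ) (a e : ι → EuclideanSpace ℝ (Fin n))
    (x : EuclideanSpace ℝ (Fin n)) : ℝ≥0∞ :=
  ∑ i, (tube δ (a i) (e i)).indicator (fun _ => (1 : ℝ≥0∞)) x

/-- The tubes through `x` whose directions lie in the half-open cube with corner `y` and side `ρ`. -/
def bush {n : ℕ} {ι : Type} (δ : ℝ) (a e : ι → EuclideanSpace ℝ (Fin n))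
    (x y : EuclideanSpace ℝ (Fin n)) (ρ : ℝ) : Set ι :=
  {i | x ∈ tube δ (a i) (e i) ∧ ∀ l, y l ≤ e i l ∧ e i l < y l + ρ}

/-- The members of `s` whose directions are within `r` of the subspace `V`. -/
def near {n : ℕ} {ι : Type} (e : ι → EuclideanSpace ℝ (Fin n)) (s : Set ι)
    (V : Submodule ℝ (EuclideanSpace ℝ (Fin n))) (r : ℝ) : Set ι :=
  {i | i ∈ s ∧ Metric.infDist (e i) V ≤ r}

/-- The directions of `s` can be covered by at most `N` closed balls of radius `r`. -/
def Covered {n : ℕ} {ι : Type} (e : ι → EuclideanSpace ℝ (Fin n)) (s : Set ι) (r N : ℝ) : Prop :=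
  ∃ Z : Finset (EuclideanSpace ℝ (Fin n)), (Z.card : ℝ) ≤ N ∧ ∀ i ∈ s, ∃ z ∈ Z, ‖e i - z‖ ≤ r

/-- `s` is flat at the scale `r`: for some linear subspace `V` of dimension `< k`, the directions of
at least half of the members of `s` are within `r` of `V`, and these directions cannot be covered by
`N` balls of radius `r`. -/
def IsFlat {n : ℕ} {ι : Type} (k : ℕ) (N r : ℝ) (e : ι → EuclideanSpace ℝ (Fin n)) (s : Set ι) :
    Prop :=
  ∃ V : Submodule ℝ (EuclideanSpace ℝ (Fin n)), Module.finrank ℝ V < k ∧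
    s.ncard ≤ 2 * (near e s V r).ncard ∧ ¬ Covered e (near e s V r) r N

/-- The number of tubes in the largest flat bush at `x`: the bushes are given by cubes of
directions of the sides `K ^ (-m)`, `m = 0, 1, …`, and they are flat at the scale
`K ^ (-(m+1)) ≥ δ`. -/
noncomputable def flatMult {n : ℕ} {ι : Type} (k K : ℕ) (N δ : ℝ)
    (a e : ι → EuclideanSpace ℝ (Fin n)) (x : EuclideanSpace ℝ (Fin n)) : ℝ≥0∞ :=
  ⨆ (y : EuclideanSpace ℝ (Fin n)) (m : ℕ) (_ : δ ≤ 1 / (K : ℝ) ^ (m + 1))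
    (_ : IsFlat k N (1 / (K : ℝ) ^ (m + 1)) e (bush δ a e x y (1 / (K : ℝ) ^ m))),
    ((bush δ a e x y (1 / (K : ℝ) ^ m)).ncard : ℝ≥0∞)

/-- The bushes at the points of `G` spread along the subspaces of dimension `< k` in an at most
`β`-dimensional way: for all `x ∈ G` and all `δ ≤ r ≤ ρ`, the directions of the tubes through `x`
that lie in a ball of radius `ρ` and within `r` of a linear subspace of dimension `< k` can be
covered by `B (ρ / r) ^ β` balls of radius `r`. -/
def SpreadOn {n : ℕ} {ι : Type} (G : Set (EuclideanSpace ℝ (Fin n))) (k : ℕ) (β B δ : ℝ)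
    (a e : ι → EuclideanSpace ℝ (Fin n)) : Prop :=
  ∀ x ∈ G, ∀ (y : EuclideanSpace ℝ (Fin n)) (V : Submodule ℝ (EuclideanSpace ℝ (Fin n))),
    Module.finrank ℝ V < k → ∀ r ρ : ℝ, δ ≤ r → r ≤ ρ →
    Covered e {i | x ∈ tube δ (a i) (e i) ∧ ‖e i - y‖ ≤ ρ ∧ Metric.infDist (e i) V ≤ r} r
      (B * (ρ / r) ^ β)

/-- The directions have dimension at most `α` at the scales `≥ δ`: every ball of radius `ρ ≥ δ`
around a direction contains at most `A (ρ / δ) ^ α` of the directions (with multiplicities). -/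
def DimLe {n : ℕ} {ι : Type} (α A δ : ℝ) (e : ι → EuclideanSpace ℝ (Fin n)) : Prop :=
  ∀ (i : ι) (ρ : ℝ), δ ≤ ρ → (Nat.card {j // ‖e j - e i‖ ≤ ρ} : ℝ) ≤ A * (ρ / δ) ^ α

theorem result (n k : ℕ) (hk : 2 ≤ k) (hkn : k ≤ n) :
    (∃ A : ℝ, 1 ≤ A ∧ ∀ δ : ℝ, 0 < δ → δ < 1 →
      ∀ (ι : Type) [Fintype ι] (e : ι → EuclideanSpace ℝ (Fin n)), (∀ i, ‖e i‖ = 1) →
      (∀ i j, i ≠ j → δ ≤ ‖e i - e j‖) → DimLe ((n : ℝ) - 1) A δ e) ∧
    ∀ α β A B : ℝ, 0 ≤ α → 0 ≤ β → 0 ≤ A → 1 ≤ B → ∃ C : ℝ, 1 ≤ C ∧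
      (∀ K : ℕ, C ≤ K → ∀ δ : ℝ, 0 < δ → δ < 1 →
        ∀ (ι : Type) [Fintype ι] (a e : ι → EuclideanSpace ℝ (Fin n)), (∀ i, ‖e i‖ = 1) →
        DimLe α A δ e → ∀ G : Set (EuclideanSpace ℝ (Fin n)),
        ∫⁻ x in G, mult δ a e x ^ ((k : ℝ) / ((k : ℝ) - 1)) ≤
          ENNReal.ofReal ((K : ℝ) ^ C * C ^ (Real.log (1 / δ) / Real.log K) *
            (1 / δ) ^ (max (max (α / ((k : ℝ) - 1) - 1) (β / ((k : ℝ) - 1))) 0)) *
            (ENNReal.ofReal (δ ^ (n - 1)) * Fintype.card ι +
              ∫⁻ x in G, mult δ a e x *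
                flatMult k K (B * (K : ℝ) ^ β) δ a e x ^ (1 / ((k : ℝ) - 1)))) ∧
      (∀ δ : ℝ, 0 < δ → δ < 1 →
        ∀ (ι : Type) [Fintype ι] (a e : ι → EuclideanSpace ℝ (Fin n)), (∀ i, ‖e i‖ = 1) →
        DimLe α A δ e → ∀ G : Set (EuclideanSpace ℝ (Fin n)), SpreadOn G k β B δ a e →
        ∀ q : ℝ, (k : ℝ) / ((k : ℝ) - 1) ≤ q →
        eLpNorm (fun x => ∑ i, (tube δ (a i) (e i)).indicator (fun _ => (1 : ℝ)) x)
            (ENNReal.ofReal q) (volume.restrict G) ≤
          ENNReal.ofReal (C * Real.exp (C * √(Real.log (1 / δ))) *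
            (1 / δ) ^ (max (max (α / ((k : ℝ) - 1) - 1) (β / ((k : ℝ) - 1))) 0 / q) *
            δ ^ (((n : ℝ) - 1) / q) *
            (Fintype.card ι : ℝ) ^ (1 - 1 / (q * ((k : ℝ) - 1))))) := by
  have hk2 : (2 : ℝ) ≤ k := by exact_mod_cast hk
  have hk1 : (0 : ℝ) < (k : ℝ) - 1 := by linarith
  have e0 : (k : ℝ) / ((k : ℝ) - 1) = 1 + 1 / ((k : ℝ) - 1) := by
    field_simp
    ring
  refine ⟨Pool.Agent.H565.MK.count_dirs (n := n) (by omega), ?_⟩
  intro α β A B hα hβ hA hB
  obtain ⟨C₁, hC₁, h1⟩ := Pool.Agent.H565.MK.mult_leG (n := n) hk hkn α β A B hα hβ hA hB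
  obtain ⟨C₂, hC₂, h2⟩ := Pool.Agent.H565.MK.spread_normG (n := n) hk hkn α β A B hα hβ hA hB
  refine ⟨C₁ + C₂, by linarith, ?_, ?_⟩
  · intro K hK δ hδ hδ1 ι _ a e he hdim G
    rw [e0]
    exact Pool.Agent.H565.MK.ineq_mono hC₁ (by linarith) (by linarith) hδ hδ1 _ _
      (h1 K (by linarith) δ hδ hδ1.le ι a e he hdim G)
  · intro δ hδ hδ1 ι _ a e he hdim G hsp q hq
    have h3 := h2 δ hδ hδ1 ι a e he hdim G hsp q hq
    have hq0 : 0 < q := lt_of_lt_of_le (by positivity) hq
    refine h3.trans (ENNReal.ofReal_le_ofReal ?_)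
    refine mul_le_mul_of_nonneg_right ?_ (by positivity)
    refine mul_le_mul_of_nonneg_right ?_ (by positivity)
    refine mul_le_mul_of_nonneg_right ?_ (by positivity)
    refine mul_le_mul (by linarith) (Real.exp_le_exp.2 ?_) (by positivity) (by linarith)
    exact mul_le_mul_of_nonneg_right (by linarith) (Real.sqrt_nonneg _)

end Pool.Agent.Results.MP_850839_an.FlatBushes
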