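import Pool.Agent.H565.PL.Tree6
import Pool.Graph.R_pool_sql_team_seeded_1acbe0a2.Results.MP_850839_an.LossRemoval

/-!
# The Kakeya inequality for tubes: reduction to shadings which are plany at all scales at once

1. Every shading of a family of `δ`-tubes in `ℝ ^ n` has a refinement of comparable mass which is
   plany at all scales `K ^ (-1), K ^ (-2), …, δ` simultaneously, up to small bushes.
2. A bound for the multiplicity of plany shadings with the loss `δ ^ (-ε)` implies the inequality of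
   the problem at the endpoint `q = n / (n - 1)` with about the same loss, for all families.
3. For `n ≥ 3` the inequality of the problem (for all `q > n / (n - 1)`, without a loss) is
   equivalent to the bound for the multiplicity of plany shadings; here the fineness `K = δ ^ (-η)`
   of the scales may depend on the allowed loss `ε` in an arbitrary way (for small `η` the bushes
   with at most `T` tubes are harmless).
-/

set_option autoImplicit false

open MeasureTheory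
open scoped ENNReal

namespace Pool.Agent.Results.MP_850839_an.MultiscalePlaniness

/-- The `δ`-tube with centre `a` and direction `e` (a unit vector): the closed cylinder of length
`1` and radius `δ` around the segment with centre `a` and direction `e`. -/
def tube {n : ℕ} (δ : ℝ) (a e : EuclideanSpace ℝ (Fin n)) : Set (EuclideanSpace ℝ (Fin n)) :=
  {y | |inner ℝ (y - a) e| ≤ 1 / 2 ∧ ‖(y - a) - (inner ℝ (y - a) e) • e‖ ≤ δ}

/-- The half-open cube of side `K ^ (-m)` of the grid `K ^ (-m) ℤ ^ n` that contains `v`, given by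
the integer vector `K ^ m` times its corner. -/
noncomputable def cube {n : ℕ} (K m : ℕ) (v : EuclideanSpace ℝ (Fin n)) : Fin n → ℤ :=
  fun l => ⌊(K : ℝ) ^ m * v l⌋

/-- The tubes whose shading contains `x` and whose directions lie in the cube `τ` of side
`K ^ (-m)`. -/
def bush {n : ℕ} {ι : Type} (K m : ℕ) (e : ι → EuclideanSpace ℝ (Fin n))
    (Y : ι → Set (EuclideanSpace ℝ (Fin n))) (x : EuclideanSpace ℝ (Fin n)) (τ : Fin n → ℤ) :
    Set ι :=
  {i | x ∈ Y i ∧ cube K m (e i) = τ}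

/-- The shading `Y` of a family of tubes with directions `e i` is `k`-plany at all scales
`K ^ (-(m + 1)) ≥ δ`, except for bushes of at most `T` tubes: at every point `x`, for every cube of
directions of side `K ^ (-m)`, the bush either has at most `T` tubes, or all of its directions are
within `K ^ (-(m + 1))` of one linear subspace of dimension `< k`. -/
def Plany {n : ℕ} {ι : Type} (k K : ℕ) (T δ : ℝ) (e : ι → EuclideanSpace ℝ (Fin n))
    (Y : ι → Set (EuclideanSpace ℝ (Fin n))) : Prop :=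
  ∀ (x : EuclideanSpace ℝ (Fin n)) (m : ℕ), (K : ℝ) ^ (m + 1) ≤ 1 / δ → ∀ τ : Fin n → ℤ,
    (Nat.card (bush K m e Y x τ) : ℝ) ≤ T ∨
    ∃ V : Submodule ℝ (EuclideanSpace ℝ (Fin n)), Module.finrank ℝ V < k ∧
      ∀ i ∈ bush K m e Y x τ, Metric.infDist (e i) V ≤ 1 / (K : ℝ) ^ (m + 1)

/-- `Y` is a measurable shading of the tubes of mass at least `lam`: `Y i` is a subset of the `i`-th
tube, and `∑ |Y i| ≥ lam * δ ^ (n - 1) * #tubes`. -/
def Shading {n : ℕ} {ι : Type} [Fintype ι] (δ : ℝ) (a e : ι → EuclideanSpace ℝ (Fin n)) (lam : ℝ)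
    (Y : ι → Set (EuclideanSpace ℝ (Fin n))) : Prop :=
  (∀ i, MeasurableSet (Y i)) ∧ (∀ i, Y i ⊆ tube δ (a i) (e i)) ∧
    ENNReal.ofReal (lam * δ ^ (n - 1)) * Fintype.card ι ≤ ∑ i, volume (Y i)

/-- The directions have dimension at most `α` at the scales `≥ δ`: every ball of radius `ρ ≥ δ`
around a direction contains at most `A (ρ / δ) ^ α` of the directions (with multiplicities). -/
def DimLe {n : ℕ} {ι : Type} (α A δ : ℝ) (e : ι → EuclideanSpace ℝ (Fin n)) : Prop :=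
  ∀ (i : ι) (ρ : ℝ), δ ≤ ρ → (Nat.card {j // ‖e j - e i‖ ≤ ρ} : ℝ) ≤ A * (ρ / δ) ^ α

/-- The inequality of the problem in dimension `n` for the exponent `q < ∞` with the constant `M`,
for the families of tubes of width `δ` (directions `δ`-separated). -/
def Ineq (n : ℕ) (q δ M : ℝ) : Prop :=
  ∀ (ι : Type) [Fintype ι] (a e : ι → EuclideanSpace ℝ (Fin n)), (∀ i, ‖e i‖ = 1) →
    (∀ i j, i ≠ j → δ ≤ ‖e i - e j‖) →
    eLpNorm (fun x => ∑ i, (tube δ (a i) (e i)).indicator (fun _ => (1 : ℝ)) x)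
        (ENNReal.ofReal q) volume ≤
      ENNReal.ofReal (M * δ ^ (((n : ℝ) - 1) / q) *
        (Fintype.card ι : ℝ) ^ (1 - 1 / (q * ((n : ℝ) - 1))))

/-- The assertion of the problem in dimension `n`. -/
def Q1 (n : ℕ) : Prop :=
  ∀ q : ℝ, (n : ℝ) / ((n : ℝ) - 1) < q → ∃ C : ℝ, 0 < C ∧ ∀ δ : ℝ, 0 < δ → δ < 1 → Ineq n q δ C

/-- The multiplicity bound with the loss `δ ^ (-ε)` for plany shadings: if a shading of mass `lam`
of a family of tubes with `δ`-separated directions is plany at all scales `K ^ (-m)`,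
`K = ⌈δ ^ (-η)⌉`, except for bushes of at most `K ^ D * lam ^ (-(n - 1))` tubes, and has
multiplicity at least `μ` at all its points, then `μ ≤ C δ ^ (-ε) lam ^ (-(n - 1))`. -/
def PlanyBound (n : ℕ) (D η ε : ℝ) : Prop :=
  ∃ C : ℝ, ∀ δ : ℝ, 0 < δ → δ < 1 → ∀ (ι : Type) [Fintype ι] [Nonempty ι]
    (a e : ι → EuclideanSpace ℝ (Fin n)), (∀ i, ‖e i‖ = 1) →
    (∀ i j, i ≠ j → δ ≤ ‖e i - e j‖) → ∀ K : ℕ, K = ⌈(1 / δ) ^ η⌉₊ →
    ∀ (Y : ι → Set (EuclideanSpace ℝ (Fin n))) (lam μ : ℝ), 0 < lam → 0 < μ →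
    Shading δ a e lam Y → (∀ i, ∀ x ∈ Y i, μ ≤ Nat.card {j // x ∈ Y j}) →
    Plany n K ((K : ℝ) ^ D / lam ^ ((n : ℝ) - 1)) δ e Y →
    μ * lam ^ ((n : ℝ) - 1) ≤ C * (1 / δ) ^ ε

theorem planyBound_iff {n : ℕ} {D η ε : ℝ} :
    PlanyBound n D η ε ↔ Pool.Agent.H565.PL.PlanyConj n D η ε := by
  constructor
  · rintro ⟨C, h⟩
    refine ⟨C, ?_⟩
    intro δ hδ hδ1 ι _ _ a e he hsep K hK Y hYm hYT lam μ hlam hμ hmass hmult hpl
    exact h δ hδ hδ1 ι a e he hsep K hK Y lam μ hlam hμ ⟨hYm, hYT, hmass⟩ hmult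
      (fun x m hm τ => (hpl x m hm τ).imp id fun ⟨V, hV, h⟩ => ⟨V, hV, fun i hi => h i hi.1 hi.2⟩)
  · rintro ⟨C, h⟩
    refine ⟨C, ?_⟩
    intro δ hδ hδ1 ι _ _ a e he hsep K hK Y lam μ hlam hμ hY hmult hpl
    exact h δ hδ hδ1 ι a e he hsep K hK Y hY.1 hY.2.1 lam μ hlam hμ hY.2.2 hmult
      (fun x m hm τ => (hpl x m hm τ).imp id
        fun ⟨V, hV, h⟩ => ⟨V, hV, fun i hi hτ => h i ⟨hi, hτ⟩⟩)

theorem card_pow {n : ℕ} {ι : Type} [Fintype ι] (δ : ℝ) (a e : ι → EuclideanSpace ℝ (Fin n))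
    (x : EuclideanSpace ℝ (Fin n)) :
    ((Pool.Agent.H565.MK.thr δ a e x).card : ℝ≥0∞) =
      ‖∑ i, (tube δ (a i) (e i)).indicator (fun _ => (1 : ℝ)) x‖ₑ := by
  classical
  rw [Real.enorm_of_nonneg (Finset.sum_nonneg fun i _ =>
      Set.indicator_nonneg (fun _ _ => zero_le_one) _),
      ENNReal.ofReal_sum_of_nonneg fun i _ => Set.indicator_nonneg (fun _ _ => zero_le_one) _,
      ← Pool.Agent.H565.PL.card_one,
      ← Finset.sum_subset (Finset.subset_univ (Pool.Agent.H565.MK.thr δ a e x))]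
  · refine Finset.sum_congr rfl fun i hi => ?_
    have hi' : x ∈ tube δ (a i) (e i) := (Pool.Agent.H565.MK.mem_thr δ a e x i).1 hi
    rw [Set.indicator_of_mem hi', ENNReal.ofReal_one]
  · intro i _ hi
    have hi' : x ∉ tube δ (a i) (e i) := fun h =>
      hi ((Pool.Agent.H565.MK.mem_thr δ a e x i).2 h)
    rw [Set.indicator_of_notMem hi', ENNReal.ofReal_zero]

/-- The inequality as an inequality for integrals. -/
theorem ineq_iff {n : ℕ} (hn : 2 ≤ n) {q δ M : ℝ} (hq : 0 < q) (hδ : 0 < δ) (hM : 0 ≤ M) :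
    Ineq n q δ M ↔ ∀ (ι : Type) [Fintype ι] (a e : ι → EuclideanSpace ℝ (Fin n)),
      (∀ i, ‖e i‖ = 1) → (∀ i j, i ≠ j → δ ≤ ‖e i - e j‖) →
      ∫⁻ x, ((Pool.Agent.H565.MK.thr δ a e x).card : ℝ≥0∞) ^ q ≤
        ENNReal.ofReal (M ^ q * (δ ^ (n - 1) * (Fintype.card ι : ℝ) ^ (q - 1 / ((n : ℝ) - 1)))) := by
  have hn2 : (2 : ℝ) ≤ n := by exact_mod_cast hn
  have hn1 : (0 : ℝ) < (n : ℝ) - 1 := by linarith
  unfold Ineq
  refine forall_congr' fun ι => forall_congr' fun _ => forall_congr' fun a => forall_congr' fun e =>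
    imp_congr_right fun _ => imp_congr_right fun _ => ?_
  rw [eLpNorm_eq_lintegral_rpow_enorm_toReal (by
    rw [ne_eq, ENNReal.ofReal_eq_zero, not_le]; exact hq) ENNReal.ofReal_ne_top,
    ENNReal.toReal_ofReal hq.le]
  simp only [card_pow]
  rw [one_div, ENNReal.rpow_inv_le_iff hq, ENNReal.ofReal_rpow_of_nonneg (by positivity) hq.le]
  have e4 : (M * δ ^ (((n : ℝ) - 1) / q) *
      (Fintype.card ι : ℝ) ^ (1 - 1 / (q * ((n : ℝ) - 1)))) ^ q =
      M ^ q * (δ ^ (n - 1) * (Fintype.card ι : ℝ) ^ (q - 1 / ((n : ℝ) - 1))) := by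
    have e5 : (n : ℝ) - 1 = ((n - 1 : ℕ) : ℝ) := by
      rw [Nat.cast_sub (by omega), Nat.cast_one]
    rw [Real.mul_rpow (by positivity) (by positivity), Real.mul_rpow (by positivity) (by positivity),
      ← Real.rpow_mul hδ.le, ← Real.rpow_mul (by positivity), ← Real.rpow_natCast δ (n - 1),
      mul_assoc, ← e5]
    congr 3
    · field_simp
    · field_simp
  rw [e4]

theorem result :
    (∀ n k : ℕ, 2 ≤ k → k ≤ n → ∀ α A : ℝ, 0 ≤ α → 0 ≤ A →
      ∃ C : ℝ, 1 ≤ C ∧ ∀ K : ℕ, C ≤ K → ∀ δ : ℝ, 0 < δ → δ ≤ 1 →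
        ∀ (ι : Type) [Fintype ι] (a e : ι → EuclideanSpace ℝ (Fin n)), (∀ i, ‖e i‖ = 1) →
        DimLe α A δ e → ∀ (lam : ℝ) (Y : ι → Set (EuclideanSpace ℝ (Fin n))), 0 < lam →
        Shading δ a e lam Y →
        ∃ Z : ι → Set (EuclideanSpace ℝ (Fin n)), (∀ i, Z i ⊆ Y i) ∧
          Shading δ a e (lam / (2 * 2 ^ (Real.log (1 / δ) / Real.log K))) Z ∧
          Plany k K ((K : ℝ) ^ C * C ^ (Real.log (1 / δ) / Real.log K) *
            (1 / δ) ^ (max (α - ((k : ℝ) - 1)) 0) / lam ^ ((k : ℝ) - 1)) δ e Z) ∧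
    (∀ n : ℕ, 2 ≤ n → ∃ A : ℝ, 1 ≤ A ∧ ∀ δ : ℝ, 0 < δ → δ < 1 →
      ∀ (ι : Type) [Fintype ι] (e : ι → EuclideanSpace ℝ (Fin n)), (∀ i, ‖e i‖ = 1) →
      (∀ i j, i ≠ j → δ ≤ ‖e i - e j‖) → DimLe ((n : ℝ) - 1) A δ e) ∧
    (∀ n : ℕ, 2 ≤ n → ∃ D : ℝ, 1 ≤ D ∧
      (∀ η ε ε' : ℝ, 0 < η → 0 < ε → ε / n < ε' → PlanyBound n D η ε →
        ∃ C : ℝ, 0 < C ∧ ∀ δ : ℝ, 0 < δ → δ < 1 →
          Ineq n ((n : ℝ) / ((n : ℝ) - 1)) δ (C * (1 / δ) ^ ε')) ∧
      (3 ≤ n → ∀ η : ℝ → ℝ, (∀ ε : ℝ, 0 < ε → 0 < η ε) →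
        (Q1 n ↔ ∀ ε : ℝ, 0 < ε → PlanyBound n D (η ε) ε))) := by
  refine ⟨?_, ?_, ?_⟩
  · intro n k hk hkn α A hα hA
    obtain ⟨C, hC, h⟩ := Pool.Agent.H565.PL.plany_refine (n := n) hk hkn α A hα hA
    refine ⟨C, hC, ?_⟩
    intro K hK δ hδ hδ1 ι _ a e he hdim lam Y hlam hY
    obtain ⟨Z, hZm, hZY, hmass, hpl⟩ := h K hK δ hδ hδ1 ι a e he hdim Y hY.1 hY.2.1 lam hlam hY.2.2
    refine ⟨Z, hZY, ⟨hZm, fun i => (hZY i).trans (hY.2.1 i), ?_⟩, ?_⟩
    · have h2 : 0 < 2 * (2 : ℝ) ^ (Real.log (1 / δ) / Real.log K) := by positivity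
      have h3 := hY.2.2.trans hmass
      have e1 : lam * δ ^ (n - 1) = 2 * (2 : ℝ) ^ (Real.log (1 / δ) / Real.log K) *
          (lam / (2 * (2 : ℝ) ^ (Real.log (1 / δ) / Real.log K)) * δ ^ (n - 1)) := by
        field_simp
      rw [e1, ENNReal.ofReal_mul h2.le, mul_assoc] at h3
      exact (ENNReal.mul_le_mul_iff_right (by
        rw [ne_eq, ENNReal.ofReal_eq_zero, not_le]; exact h2) ENNReal.ofReal_ne_top).1 h3
    · intro x m hm τ
      exact (hpl x m hm τ).imp id fun ⟨V, hV, h⟩ => ⟨V, hV, fun i hi => h i hi.1 hi.2⟩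
  · intro n hn
    exact Pool.Agent.H565.MK.count_dirs (n := n) (by omega)
  · intro n hn
    obtain ⟨D, hD, hw⟩ := Pool.Agent.H565.PL.weak_of_plany (n := n) hn
    have hn2 : (2 : ℝ) ≤ n := by exact_mod_cast hn
    have hn1 : (0 : ℝ) < (n : ℝ) - 1 := by linarith
    have hn0 : (0 : ℝ) < n := by linarith
    have e0 : (n : ℝ) / ((n : ℝ) - 1) = 1 + 1 / ((n : ℝ) - 1) := by
      field_simp
      ring
    have hstr : ∀ η ε ε' : ℝ, 0 < η → 0 < ε → ε / n < ε' → PlanyBound n D η ε →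
        ∃ C : ℝ, 0 < C ∧ ∀ δ : ℝ, 0 < δ → δ < 1 →
          Ineq n ((n : ℝ) / ((n : ℝ) - 1)) δ (C * (1 / δ) ^ ε') := by
      intro η ε ε' hη hε hε' hP
      rw [planyBound_iff] at hP
      have e1 : ε = ε / ((n : ℝ) - 1) * ((n : ℝ) - 1) := by field_simp
      rw [e1] at hP
      have hw1 := hw η hη (ε / ((n : ℝ) - 1)) (by positivity) hP
      have e2 : 0 < ε' * ((n : ℝ) / ((n : ℝ) - 1)) - ε / ((n : ℝ) - 1) := by
        rw [div_lt_iff₀ hn0] at hε'
        have : ε' * ((n : ℝ) / ((n : ℝ) - 1)) - ε / ((n : ℝ) - 1) =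
            (ε' * n - ε) / ((n : ℝ) - 1) := by
          field_simp
        rw [this]
        exact div_pos (by linarith) hn1
      obtain ⟨C, hC, hs⟩ := Pool.Agent.H565.PL.strong_of_weak (n := n) hn (ε / ((n : ℝ) - 1))
        (ε' * ((n : ℝ) / ((n : ℝ) - 1)) - ε / ((n : ℝ) - 1)) (by positivity) e2 hw1
      refine ⟨C ^ (((n : ℝ) - 1) / n), by positivity, ?_⟩
      intro δ hδ hδ1
      have hv : 0 < 1 / δ := by positivity
      rw [ineq_iff hn (by positivity) hδ (by positivity)]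
      intro ι _ a e he hsep
      refine le_trans (le_of_eq ?_) ((hs δ hδ hδ1 ι a e he hsep).trans (ENNReal.ofReal_le_ofReal
        (le_of_eq ?_)))
      · rw [e0]
      · have e3 : (C ^ (((n : ℝ) - 1) / n) * (1 / δ) ^ ε') ^ ((n : ℝ) / ((n : ℝ) - 1)) =
            C * (1 / δ) ^ (ε' * ((n : ℝ) / ((n : ℝ) - 1))) := by
          rw [Real.mul_rpow (by positivity) (by positivity), ← Real.rpow_mul hC.le,
            ← Real.rpow_mul hv.le]
          congr 1
          have : ((n : ℝ) - 1) / n * ((n : ℝ) / ((n : ℝ) - 1)) = 1 := by field_simp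
          rw [this, Real.rpow_one]
        have e4 : (n : ℝ) / ((n : ℝ) - 1) - 1 / ((n : ℝ) - 1) = 1 := by
          field_simp
        rw [e3, e4, Real.rpow_one, add_sub_cancel]
    refine ⟨D, hD, hstr, ?_⟩
    intro hn3 η hη
    constructor
    · intro hQ ε hε
      have h := Pool.Agent.H565.PL.plany_of (n := n) hn (by
        intro q hq
        obtain ⟨C, hC, hI⟩ := hQ q hq
        have hq0 : 0 < q := lt_trans (by positivity) hq
        refine ⟨C ^ q, by positivity, ?_⟩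
        intro δ hδ hδ1
        exact (ineq_iff hn hq0 hδ hC.le).1 (hI δ hδ hδ1)) ε hε
      obtain ⟨C, hC⟩ := h
      refine ⟨C, ?_⟩
      intro δ hδ hδ1 ι _ _ a e he hsep K _ Y lam μ hlam hμ hY hmult _
      exact hC δ hδ hδ1 ι a e he hsep Y hY.1 hY.2.1 lam μ hlam hμ hY.2.2 hmult
    · intro h q hq
      have h1 := (Pool.Agent.Results.MP_850839_an.LossRemoval.result n hn3
        ((n : ℝ) / ((n : ℝ) - 1)) le_rfl).2 (by
          intro ε hε
          obtain ⟨C, hC, hI⟩ := hstr (η (n * ε / 2)) (n * ε / 2) ε (hη _ (by positivity))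
            (by positivity) (by
              rw [div_lt_iff₀ hn0]
              nlinarith) (h _ (by positivity))
          refine ⟨C, hC, ?_⟩
          intro δ hδ hδ1
          have e5 : δ ^ (-ε) = (1 / δ) ^ ε := by
            rw [one_div, Real.inv_rpow hδ.le, Real.rpow_neg hδ.le]
          rw [e5]
          exact hI δ hδ hδ1) q hq
      exact h1

end Pool.Agent.Results.MP_850839_an.MultiscalePlaniness
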